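import Pool.Agent.helper84.LP.SpecG

/-!
# lp:LDV, large deviations on a leaf (helper63)
-/

set_option autoImplicit false

open scoped MatrixGroups ContDiff Topology UpperHalfPlane ComplexConjugate
open UpperHalfPlane MeasureTheory Filter Set

namespace Pool.Agent.LP

open Pool.Agent.RS

/-- continuity of the time averages along a leaf -/
theorem LDV_cont (hGLC : RS.GLC_stmt) (V : ℍ → ℝ) (hV : Continuous V) (T : ℝ) (g : SL(2, ℝ)) :
    Continuous fun v : ℝ => ∫ t in (0 : ℝ)..T, V ((g * lM v * aM t) • I) := by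
  obtain ⟨-, -, -, haM, -, hlM, -⟩ := hGLC
  refine intervalIntegral.continuous_parametric_intervalIntegral_of_continuous' (f := fun (v : ℝ) t => V ((g * lM v * aM t) • I)) ?_ 0 T
  refine hV.comp ?_
  have h1 : Continuous fun p : ℝ × ℝ => g * lM p.1 * aM p.2 :=
    (continuous_const.mul (hlM.comp continuous_fst)).mul (haM.comp continuous_snd)
  exact h1.smul continuous_const

/-- **Row LDV** -/
theorem LDV_proof (hQEX : RS.QEX_stmt) (hGLC : RS.GLC_stmt) : LDV_stmt := by
  intro Γ F V ε hΓ hF hV hε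
  have hV' : QU.Inv Γ (fun z => - V z) := ⟨hV.1.neg, fun γ z => by show - V (γ • z) = - V z; rw [hV.2]⟩
  obtain ⟨θ, C, hθ, hC, h⟩ := hQEX Γ F (fun z => - V z) (ε / 2) hΓ hF hV' (by positivity)
  refine ⟨θ * ε / 2, C, by positivity, hC, ?_⟩
  intro T g hT
  have h1 := h T g hT
  obtain ⟨M, hM⟩ : ∃ M, M = (∫ z in F, V z) / (volume F).toReal := ⟨_, rfl⟩
  have hM' : (∫ z in F, - V z) / (volume F).toReal = - M := by
    rw [hM, integral_neg, neg_div]
  rw [hM'] at h1
  rw [← hM]
  have hcont := LDV_cont hGLC V hV.1 T g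
  obtain ⟨S, hS⟩ : ∃ S : Set ℝ, S = {v : ℝ | v ∈ Icc (0 : ℝ) 1 ∧ ∫ t in (0 : ℝ)..T, V ((g * lM v * aM t) • I) ≤ (M - ε) * T} := ⟨_, rfl⟩
  have hSm : MeasurableSet S := by
    rw [hS]
    exact (isClosed_Icc.inter (isClosed_le hcont continuous_const)).measurableSet
  have hSI : S ⊆ Icc (0 : ℝ) 1 := by
    rw [hS]; exact fun v hv => hv.1
  rw [← hS]
  obtain ⟨f, hf⟩ : ∃ f : ℝ → ℝ, f = fun v => Real.exp (θ * ∫ t in (0 : ℝ)..T, - V ((g * lM v * aM t) • I)) := ⟨_, rfl⟩
  have hfc : Continuous f := by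
    rw [hf]
    refine Real.continuous_exp.comp (continuous_const.mul ?_)
    simp only [intervalIntegral.integral_neg]
    exact hcont.neg
  have hf1 : ∫ v in (0 : ℝ)..1, f v = ∫ v in Icc (0 : ℝ) 1, f v := by
    rw [intervalIntegral.integral_of_le zero_le_one, integral_Icc_eq_integral_Ioc]
  have hfint : IntegrableOn f (Icc (0 : ℝ) 1) := hfc.continuousOn.integrableOn_Icc
  have h2 : ∫ v in S, f v ≤ ∫ v in Icc (0 : ℝ) 1, f v :=
    setIntegral_mono_set hfint (ae_of_all _ fun v => by rw [hf]; exact (Real.exp_pos _).le) hSI.eventuallyLE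
  have hSfin : volume S ≠ ⊤ := ((measure_mono hSI).trans_lt (by simp)).ne
  have h3 : volume.real S * Real.exp (-(θ * (M - ε) * T)) ≤ ∫ v in S, f v := by
    have h4 : ∫ v in S, Real.exp (-(θ * (M - ε) * T)) ≤ ∫ v in S, f v := by
      refine setIntegral_mono_on ?_ (hfint.mono_set hSI) hSm ?_
      · exact integrableOn_const hSfin
      · intro v hv
        rw [hS] at hv
        rw [hf]
        refine Real.exp_le_exp.mpr ?_
        rw [intervalIntegral.integral_neg]
        have := mul_le_mul_of_nonneg_left hv.2 hθ.le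
        linarith
    rwa [setIntegral_const, smul_eq_mul] at h4
  have h5 : volume.real S * Real.exp (-(θ * (M - ε) * T)) ≤ C * Real.exp (θ * (-M + ε / 2) * T) := by
    refine h3.trans (h2.trans ?_)
    rw [← hf1, hf]
    exact h1
  have h6 : volume.real S = volume.real S * Real.exp (-(θ * (M - ε) * T)) * Real.exp (θ * (M - ε) * T) := by
    rw [mul_assoc, ← Real.exp_add]; simp
  rw [h6]
  refine (mul_le_mul_of_nonneg_right h5 (Real.exp_pos _).le).trans (le_of_eq ?_)
  rw [mul_assoc, ← Real.exp_add]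
  congr 2
  ring

end Pool.Agent.LP
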